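import Mathlib
import Pool.Agent.Helper394.Spec

open Finset Filter Topology

namespace Pool.Agent.Results.MP_d1aba8_pr.TypicalStartFalse

noncomputable section

section defs

variable {Ω : Type} [Fintype Ω] [DecidableEq Ω]

/-- `Q` is the generator of a continuous-time Markov chain on the finite set `Ω`:
nonnegative off-diagonal rates and zero row sums. -/
def IsGenerator (Q : Matrix Ω Ω ℝ) : Prop :=
  (∀ x y, x ≠ y → 0 ≤ Q x y) ∧ ∀ x, ∑ y, Q x y = 0

/-- Transition probabilities `P_x(X_t = y) = exp(t Q) x y`. -/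
def heat (Q : Matrix Ω Ω ℝ) (t : ℝ) : Matrix Ω Ω ℝ := NormedSpace.exp (t • Q)

/-- The chain is irreducible: every state can be reached from every state. -/
def IsIrreducible (Q : Matrix Ω Ω ℝ) : Prop := ∀ x y, ∃ t : ℝ, 0 < t ∧ 0 < heat Q t x y

/-- `π` is a stationary distribution of the chain with generator `Q`. -/
def IsStationary (Q : Matrix Ω Ω ℝ) (π : Ω → ℝ) : Prop :=
  (∀ x, 0 ≤ π x) ∧ ∑ x, π x = 1 ∧ ∀ t : ℝ, 0 ≤ t → ∀ y, ∑ x, π x * heat Q t x y = π y

/-- Total variation distance `‖P_x(X_t ∈ ·) - π‖` (half of the `ℓ¹` distance). -/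
def d (Q : Matrix Ω Ω ℝ) (π : Ω → ℝ) (x : Ω) (t : ℝ) : ℝ :=
  (1 / 2 : ℝ) * ∑ y, |heat Q t x y - π y|

/-- `τ_x = inf {t ≥ 0 : ‖P_x(X_t ∈ ·) - π‖ ≤ 1/4}`. -/
def tauX (Q : Matrix Ω Ω ℝ) (π : Ω → ℝ) (x : Ω) : ℝ :=
  sInf {t : ℝ | 0 ≤ t ∧ d Q π x t ≤ 1 / 4}

open Classical in
/-- The `π`-measure of the set of states satisfying `p`. -/
def meas (π : Ω → ℝ) (p : Ω → Prop) : ℝ := ∑ x, if p x then π x else 0

/-- `m` is a median of `τ_x` when `x` is drawn from `π`. -/
def IsMedianTau (Q : Matrix Ω Ω ℝ) (π : Ω → ℝ) (m : ℝ) : Prop :=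
  1 / 2 ≤ meas π (fun x => tauX Q π x ≤ m) ∧ 1 / 2 ≤ meas π (fun x => m ≤ tauX Q π x)

/-- Spectral gap: the smallest real part of a nonzero (complex) eigenvalue of `-Q`. -/
def gap (Q : Matrix Ω Ω ℝ) : ℝ :=
  sInf {r : ℝ | ∃ z ∈ spectrum ℂ ((-Q).map (algebraMap ℝ ℂ)), z ≠ 0 ∧ r = z.re}

/-- Relaxation time `τ₂ = 1 / λ`. -/
def tau2 (Q : Matrix Ω Ω ℝ) : ℝ := 1 / gap Q

end defs

/-- The two conclusions of the question, for one value of `ε`. -/
def Conclusion (Ω : ℕ → Type) [∀ n, Fintype (Ω n)] [∀ n, DecidableEq (Ω n)]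
    (Q : ∀ n, Matrix (Ω n) (Ω n) ℝ) (π : ∀ n, Ω n → ℝ) (τ : ℕ → ℝ) (ε : ℝ) : Prop :=
  Tendsto (fun n => meas (π n) (fun x => 1 - ε < d (Q n) (π n) x ((1 - ε) * τ n))) atTop (𝓝 1) ∧
  Tendsto (fun n => meas (π n) (fun x => d (Q n) (π n) x ((1 + ε) * τ n) < ε)) atTop (𝓝 1)

/-- There is a sequence of finite irreducible continuous-time Markov chains with
`τ/τ₂ → ∞` and some `ε > 0` for which the conclusion of the question fails. -/
theorem result :
    ∃ (Ω : ℕ → Type) (_ : ∀ n, Fintype (Ω n)) (_ : ∀ n, DecidableEq (Ω n))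
      (Q : ∀ n, Matrix (Ω n) (Ω n) ℝ) (π : ∀ n, Ω n → ℝ) (τ : ℕ → ℝ),
      (∀ n, IsGenerator (Q n)) ∧
      (∀ n, IsIrreducible (Q n)) ∧
      (∀ n, IsStationary (Q n) (π n)) ∧
      (∀ n, IsMedianTau (Q n) (π n) (τ n)) ∧
      Tendsto (fun n => τ n / tau2 (Q n)) atTop atTop ∧
      ∃ ε : ℝ, 0 < ε ∧ ¬ Conclusion Ω Q π τ ε := by
  choose N hN S hTN hS using fun n : ℕ => Helper394.exists_bad (8 * (n + 8)) (by omega)
  let Q : ∀ n, Matrix (ZMod (N n)) (ZMod (N n)) ℝ := fun n => Helper394.Pn (S n) - 1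
  let π : ∀ n, ZMod (N n) → ℝ := fun n _ => 1 / (Fintype.card (ZMod (N n)) : ℝ)
  have hP : ∀ n, ∀ f : ZMod (N n) → ℝ, (Helper394.Pn (S n)).mulVec f = Helper394.U (S n) f :=
    fun n f => Helper394.Pn_mulVec (S n) f
  have hcard : ∀ n, (0 : ℝ) < Fintype.card (ZMod (N n)) := fun n => by
    exact_mod_cast Fintype.card_pos
  have hd : ∀ n x t, d (Q n) (π n) x t = (1 / 2 : ℝ) * ∑ y,
      |(NormedSpace.exp (t • (Helper394.Pn (S n) - 1))) x y -
        1 / (Fintype.card (ZMod (N n)) : ℝ)| := fun n x t => rfl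
  have hlow : ∀ n x t, 0 ≤ t → t ≤ 4 * ((n + 8 : ℕ) : ℝ) → 1 / 2 < d (Q n) (π n) x t := by
    intro n x t ht0 ht
    rw [hd]
    exact Helper394.heat_lower (m := n + 8) (by omega) (hS n) (hP n) t ht0 ht x
  have hup : ∀ n x t, 2 * ((n + 8 : ℕ) : ℝ) ≤ t → d (Q n) (π n) x t ≤ 1 - 1 / 2000 := by
    intro n x t ht
    rw [hd]
    exact Helper394.heat_tv_upper (m := n + 8) (by omega) (hS n) (hP n) t ht x
  have hconv : ∀ n x, ∃ t, 0 ≤ t ∧ d (Q n) (π n) x t ≤ 1 / 4 := by
    intro n x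
    have hG := hcard n
    obtain ⟨t, ht0, ht⟩ := Helper394.heat_conv (m := n + 8) (by omega) (hS n) (hP n)
      ((1 / 4) / Fintype.card (ZMod (N n))) (by positivity)
    refine ⟨t, ht0, ?_⟩
    rw [hd]
    calc (1 / 2 : ℝ) * ∑ y, |(NormedSpace.exp (t • (Helper394.Pn (S n) - 1))) x y -
          1 / (Fintype.card (ZMod (N n)) : ℝ)|
        ≤ (1 / 2 : ℝ) * ∑ _y : ZMod (N n), (1 / 4) / (Fintype.card (ZMod (N n)) : ℝ) := by
          gcongr with y
          exact ht x y
      _ = 1 / 8 := by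
          simp only [Finset.sum_const, Finset.card_univ, nsmul_eq_mul]
          field_simp
          norm_num
      _ ≤ 1 / 4 := by norm_num
  have hdx : ∀ n x t, d (Q n) (π n) x t = d (Q n) (π n) 0 t := by
    intro n x t
    rw [hd, hd, Helper394.heat_tv_translate (hP n)]
  have htx : ∀ n x, tauX (Q n) (π n) x = tauX (Q n) (π n) 0 := by
    intro n x
    simp only [tauX, hdx n x]
  have htau : ∀ n, 4 * ((n + 8 : ℕ) : ℝ) ≤ tauX (Q n) (π n) 0 := by
    intro n
    apply le_csInf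
    · exact hconv n 0
    · rintro t ⟨ht0, ht⟩
      by_contra hcon
      push Not at hcon
      have := hlow n 0 t ht0 hcon.le
      linarith
  have htot : ∀ n, ∑ x, π n x = 1 := by
    intro n
    have hG := hcard n
    simp only [π, Finset.sum_const, Finset.card_univ, nsmul_eq_mul]
    field_simp
  have hmeas1 : ∀ n (p : ZMod (N n) → Prop), (∀ x, p x) → meas (π n) p = 1 := by
    intro n p hp
    rw [← htot n]
    refine Finset.sum_congr rfl fun x _ => ?_
    rw [if_pos (hp x)]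
  have hmeas0 : ∀ n (p : ZMod (N n) → Prop), (∀ x, ¬ p x) → meas (π n) p = 0 := by
    intro n p hp
    apply Finset.sum_eq_zero
    intro x _
    rw [if_neg (hp x)]
  refine ⟨fun n => ZMod (N n), fun n => inferInstance, fun n => inferInstance, Q, π,
    fun n => tauX (Q n) (π n) 0, ?_, ?_, ?_, ?_, ?_, ?_⟩
  · intro n
    refine ⟨?_, ?_⟩
    · intro x y hxy
      have : Q n x y = Helper394.Pn (S n) x y := by
        simp only [Q, Matrix.sub_apply, Matrix.one_apply_ne hxy, sub_zero]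
      rw [this, Helper394.Pn]
      split_ifs
      · positivity
      · exact le_rfl
    · intro x
      simp only [Q, Matrix.sub_apply, Finset.sum_sub_distrib]
      have h1 := Helper394.mat_sum (hP n) 1 x (fun _ => 1)
      rw [pow_one, pow_one, Helper394.U_const _ (hS n).nonempty] at h1
      simp only [mul_one] at h1
      rw [h1]
      simp [Matrix.one_apply]
  · intro n x y
    have hG := hcard n
    refine ⟨2 * ((n + 8 : ℕ) : ℝ), by positivity, ?_⟩
    have := Helper394.heat_upper_entry (m := n + 8) (by omega) (hS n) (hP n)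
      (2 * ((n + 8 : ℕ) : ℝ)) le_rfl x y
    refine lt_of_lt_of_le (by positivity) this
  · intro n
    have hG := hcard n
    refine ⟨fun x => by simp only [π]; positivity, htot n, ?_⟩
    intro t ht y
    simp only [π]
    rw [← Finset.mul_sum]
    have h1 : ∑ x, heat (Q n) t x y = 1 := by
      have h2 : ∀ x, heat (Q n) t x y = heat (Q n) t 0 (y - x) := by
        intro x
        have := Helper394.heat_translate (hP n) t 0 (y - x) x
        rw [zero_add, sub_add_cancel] at this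
        exact this
      simp only [h2]
      have h3 := Equiv.sum_comp (Equiv.subLeft y) (fun z => heat (Q n) t 0 z)
      simp only [Equiv.subLeft_apply] at h3
      rw [h3]
      exact Helper394.heat_row_sum (m := n + 8) (hS n) (hP n) t ht 0
    rw [h1, mul_one]
  · intro n
    refine ⟨?_, ?_⟩
    · rw [hmeas1 n _ (fun x => (htx n x).le)]; norm_num
    · rw [hmeas1 n _ (fun x => (htx n x).ge)]; norm_num
  · have hneg : ∀ n, -(Q n) = 1 - Helper394.Pn (S n) := fun n => by simp [Q]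
    have hgap : ∀ n, 1 / 4 ≤ gap (Q n) := by
      intro n
      have h4 : 1 < N n := by have := hTN n; omega
      have hf : Fact (1 < N n) := ⟨h4⟩
      apply le_csInf
      · obtain ⟨r, hr, hr0⟩ := Helper394.gap_complex_exists (hS n) (hP n)
          (ZMod.stdAddChar.mulShift 1) (ZMod.isPrimitive_stdAddChar (N n) one_ne_zero)
        exact ⟨r.re, r, by rw [hneg]; exact hr, hr0, rfl⟩
      · rintro r ⟨z, hz, hz0, rfl⟩
        rw [hneg] at hz
        exact Helper394.gap_complex (hS n) (hP n) z hz hz0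
    refine tendsto_atTop_mono (fun n => ?_) tendsto_natCast_atTop_atTop
    have h1 := hgap n
    have h2 := htau n
    rw [tau2, div_div_eq_mul_div, div_one]
    push_cast at h2
    have h3 : (0 : ℝ) ≤ n := by positivity
    nlinarith
  · refine ⟨1 / 2000, by norm_num, ?_⟩
    intro hcut
    have h1 := hcut.1
    have h2 : ∀ n, meas (π n) (fun x => 1 - 1 / 2000 <
        d (Q n) (π n) x ((1 - 1 / 2000) * tauX (Q n) (π n) 0)) = 0 := by
      intro n
      apply hmeas0
      intro x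
      push Not
      apply hup
      have h3 := htau n
      push_cast at h3 ⊢
      have h4 : (0 : ℝ) ≤ n := by positivity
      nlinarith
    have h3 : Tendsto (fun n => meas (π n) (fun x => 1 - 1 / 2000 <
        d (Q n) (π n) x ((1 - 1 / 2000) * tauX (Q n) (π n) 0))) atTop (𝓝 0) := by
      simp only [h2]
      exact tendsto_const_nhds
    have h4 := tendsto_nhds_unique h1 h3
    norm_num at h4

end

end Pool.Agent.Results.MP_d1aba8_pr.TypicalStartFalse
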